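import Pool.Agent.UL3.Stmts

/-!
Squad UL3, row INC: support function and balls.
-/

set_option autoImplicit false

namespace Pool.Agent.UL3.H9

open MeasureTheory Set

/-- **INC** -/
theorem inc : IncStmt := by
  intro K a b hK hc ha hb
  constructor
  · intro h y hy
    by_contra hyK
    obtain ⟨f, c, h1, h2⟩ := geometric_hahn_banach_closed_point hc hK.isClosed hyK
    set w : E3 := (InnerProductSpace.toDual ℝ E3).symm f with hw
    have hf : ∀ x : E3, f x = inner ℝ w x := fun x =>
      (InnerProductSpace.toDual_symm_apply (𝕜 := ℝ) (x := x) (y := f)).symm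
    have hw0 : w ≠ 0 := by
      intro h0
      obtain ⟨x, hx, -⟩ := h (EuclideanSpace.single 0 (1 : ℝ)) (by simp)
      have e1 := h1 x hx
      rw [hf, h0, inner_zero_left] at e1
      rw [hf, h0, inner_zero_left] at h2
      linarith
    have hn : 0 < ‖w‖ := norm_pos_iff.mpr hw0
    have hu : ‖(‖w‖⁻¹ • w : E3)‖ = 1 := by
      rw [norm_smul, norm_inv, norm_norm, inv_mul_cancel₀ hn.ne']
    obtain ⟨x, hx, hax⟩ := h _ hu
    have e1 := h1 x hx
    rw [hf, real_inner_comm] at e1
    rw [hf, real_inner_comm] at h2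
    rw [real_inner_smul_right] at hax
    have e2 : inner ℝ y (‖w‖⁻¹ • w) ≤ a := by
      calc inner ℝ y (‖w‖⁻¹ • w) ≤ ‖y‖ * ‖(‖w‖⁻¹ • w : E3)‖ := real_inner_le_norm _ _
        _ = ‖y‖ := by rw [hu, mul_one]
        _ ≤ a := by simpa using hy
    rw [real_inner_smul_right] at e2
    have e3 : ‖w‖⁻¹ * inner ℝ x w < ‖w‖⁻¹ * inner ℝ y w :=
      mul_lt_mul_of_pos_left (by linarith) (inv_pos.mpr hn)
    linarith
  · intro h x hx
    rw [Metric.mem_closedBall, dist_zero_right]
    by_cases h0 : x = 0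
    · rw [h0, norm_zero]
      exact hb.le
    · have hn : 0 < ‖x‖ := norm_pos_iff.mpr h0
      have hu : ‖(‖x‖⁻¹ • x : E3)‖ = 1 := by
        rw [norm_smul, norm_inv, norm_norm, inv_mul_cancel₀ hn.ne']
      have e := h _ hu x hx
      rw [real_inner_smul_right, real_inner_self_eq_norm_sq] at e
      have e2 : ‖x‖⁻¹ * ‖x‖ ^ 2 = ‖x‖ := by
        field_simp
      linarith

end Pool.Agent.UL3.H9
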